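import Mathlib
import Pool.Agent.Results.MP_7cad78_nt.AllSubfieldsRankZero
import Pool.Agent.E8helper49.PC.Main
import Pool.Agent.E8helper37.PC.ROOT
import Pool.Agent.E8helper85.PC.STEPA
import Pool.Agent.E8helper67.PC.STEPB
import Pool.Agent.E8helper10.PC.STEPC
import Pool.Agent.E8helper89.PC.FG
import Pool.Agent.E8helper69.PC.RANK
import Pool.Agent.E8helper36.PC.GRP
import Pool.Agent.E8helper4.PC.SPLIT
import Pool.Agent.E8helper9.PC.INV
import Pool.Agent.E8helper15.PC.DEG
import Pool.Agent.E8helper64.PC.INF1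
import Pool.Agent.E8helper15.PC.INF2
import Pool.Agent.E8helper44.PC.THR1
import Pool.Agent.E8helper90.PC.THR2
import Pool.Agent.E8helper6.PC.THR3
import Pool.Agent.E8helper41.PC.Cee

/-!
# The parity conjecture over all the fields inside `ℚ(ω, ∛l : l ∈ M)` and over towers of Galois
# extensions of odd degree above them

`E_D : y² + D y = x³` (`3`-isogenous to `x³ + y³ = D`).  `M` is any finite set of primes `≡ 1` modulo `9`,
`n = #M`, `Ω = ℚ(ω, ∛l : l ∈ M)`.  `D` runs through the class of the starting file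
`MP_7cad78_nt.AllSubfieldsRankZero`: squarefree, prime to `3` and to `M`, not `±1` modulo `9`, divisible by
exactly one prime `2` modulo `3`.  `Tower M` is the class of the number fields that are reached from a
field inside `Ω` (with or without `ω`, Galois over `ℚ` or not) by finitely many Galois extensions of odd
degree.  We prove:

* for all the `D` of the class the root number of `E_D` is `1` over all the fields of `Tower M`;
* for a proportion of the `D` that tends to `c ^ {3 ^ n}`, `c = ∏_{i ≥ 1} (1 - 3^{-i}) = 0.5601...`, the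
  rank of `E_D` over ALL the fields of `Tower M` is even, so that the parity conjecture holds for `E_D`
  over all these fields (and the rank is zero over the fields inside `Ω`).

The local root numbers (`localRoot`): the reduction of `E_D` is good at the primes that do not divide
`3 D` and potentially good everywhere.  At a prime `P` over a prime divisor `p ≠ 3` of `D` the inertia
group acts through a group of order `3` or `1`, and the local root number is `1` if `N(P) ≡ 1` modulo `3`;
if `N(P) ≡ 2` modulo `3`, the ramification index of `P` is prime to `3` for the fields of `Tower M`, and the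
local root number is `-1`.  At the primes over `3`: it is `1` over `ℚ₃` (`D` is not `±1` modulo `9`, not
divisible by `3`), `-1` over `ℚ₃(ω)`, and it does not change in Galois extensions of odd degree; the
completions at the primes over `3` of the fields of `Tower M` are reached by such extensions from `ℚ₃`
(then the ramification index is odd) or from `ℚ₃(ω)` (then it is even).

Authors of the parts of project PC: see the files imported.
-/

set_option autoImplicit false

namespace Pool.Agent.Results.MP_02f36d_nt.CubicClosureTowersH49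

open NumberField Filter Topology
open scoped Classical
open Pool.Agent.Results.MP_7cad78_nt.AllSubfieldsRankZero (curve InClass Good Inside num c)

/-- The number fields that are reached from a field inside `ℚ(ω, ∛l : l ∈ M)` by finitely many Galois
extensions of odd degree. -/
inductive Tower (M : Finset ℕ) : (K : Type) → [Field K] → [NumberField K] → Prop
  | base (K : Type) [Field K] [NumberField K] (h : Inside M K) : Tower M K
  | step (K L : Type) [Field K] [NumberField K] [Field L] [NumberField L] [Algebra K L]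
      [IsGalois K L] (h : Tower M K) (hodd : Odd (Module.finrank K L)) : Tower M L

section defs

variable (K : Type) [Field K] [NumberField K]

/-- The local root number of `E_D` at the prime `P` (for `D` in the class and `K` in `Tower M`). -/
noncomputable def localRoot (D : ℕ) (P : Ideal (𝓞 K)) : ℤ :=
  if (3 : 𝓞 K) ∈ P then (if Even (P.ramificationIdx ℤ) then -1 else 1)
  else if (D : 𝓞 K) ∈ P ∧ Nat.card (𝓞 K ⧸ P) % 3 = 2 then -1 else 1

/-- The root number of `E_D` over `K`: the product of the local root numbers, which are `-1` at the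
infinite places. -/
noncomputable def rootNumber (D : ℕ) : ℤ :=
  (-1) ^ Nat.card (InfinitePlace K) *
    ∏ᶠ P : {P : Ideal (𝓞 K) // P.IsPrime ∧ P ≠ ⊥}, localRoot K D P.1

/-- The Mordell-Weil rank of `E_D` over `K`. -/
noncomputable def rank (D : ℕ) : ℕ := Module.finrank ℤ (curve D K).toAffine.Point

end defs

/-- The parity conjecture holds for `E_D` over all the fields of `Tower M`. -/
def ParityHolds (M : Finset ℕ) (D : ℕ) : Prop :=
  ∀ (K : Type) [Field K] [NumberField K], Tower M K → (-1) ^ rank K D = rootNumber K D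

theorem sDEG : Pool.Agent.E8helper49.PC.S_DEG :=
  Pool.Agent.E8helper15.PC.t_DEG Pool.Agent.E8helper36.PC.t_GRP

theorem sINF : Pool.Agent.E8helper49.PC.S_INF :=
  Pool.Agent.E8helper15.PC.t_INF2 sDEG
    (Pool.Agent.E8helper64.PC.t_INF1 Pool.Agent.E8helper36.PC.t_GRP Pool.Agent.E8helper9.PC.t_INV)

theorem sTHR1 : Pool.Agent.E8helper49.PC.S_THR1 :=
  Pool.Agent.E8helper44.PC.t_THR1 Pool.Agent.E8helper36.PC.t_GRP Pool.Agent.E8helper4.PC.t_SPLIT

theorem sTHREE : Pool.Agent.E8helper49.PC.S_THREE :=
  Pool.Agent.E8helper6.PC.t_THR3 sDEG sTHR1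
    (Pool.Agent.E8helper90.PC.t_THR2 Pool.Agent.E8helper36.PC.t_GRP Pool.Agent.E8helper9.PC.t_INV
      Pool.Agent.E8helper4.PC.t_SPLIT sTHR1)

theorem sCEE : Pool.Agent.E8helper49.PC.S_CEE :=
  Pool.Agent.E8helper41.PC.t_CEE Pool.Agent.E8helper36.PC.t_GRP sDEG

theorem sRANK : Pool.Agent.E8helper49.PC.S_RANK :=
  Pool.Agent.E8helper69.PC.t_RANK Pool.Agent.E8helper89.PC.t_FG

open Pool.Agent.E8helper49.PC in
lemma tow_of {M : Finset ℕ} (K : Type) [Field K] [NumberField K] (h : Tower M K) : Tow M K := by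
  induction h with
  | base K h => exact Tow.base K h
  | step K L h hodd ih => exact Tow.step K L ih hodd

lemma root_one {M : Finset ℕ} (hM : ∀ l ∈ M, l.Prime ∧ l % 9 = 1) {D : ℕ} (hD : InClass M D)
    (K : Type) [Field K] [NumberField K] (h : Tower M K) : rootNumber K D = 1 := by
  obtain ⟨h1, -, -, -, -, q, hq, hq3, hqD, hp⟩ := hD
  refine Pool.Agent.E8helper49.PC.root_tow Pool.Agent.E8helper37.PC.t_ROOT
    Pool.Agent.E8helper85.PC.t_STEPA Pool.Agent.E8helper67.PC.t_STEPB
    Pool.Agent.E8helper10.PC.t_STEPC sINF sTHREE sCEE hM h1.ne_zero hq hq3 hqD ?_ K (tow_of K h)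
  intro p h2 h3 h4
  exact hp p h2 h3 h4

lemma rank_even {M : Finset ℕ} (hM : ∀ l ∈ M, l.Prime ∧ l % 9 = 1) {D : ℕ} (hD : InClass M D)
    (hg : Good M D) (K : Type) [Field K] [NumberField K] (h : Tower M K) : Even (rank K D) := by
  refine Pool.Agent.E8helper49.PC.rank_tow sRANK hD.1.ne_zero ?_ K (tow_of K h)
  intro F _ _ hF
  exact ((Pool.Agent.Results.MP_7cad78_nt.AllSubfieldsRankZero.result M hM).2.2.1 D hD hg).1 F hF

lemma num_mono {M : Finset ℕ} {Q Q' : ℕ → Prop} (h : ∀ D : ℕ, InClass M D → Q D → Q' D) (X : ℕ) :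
    num M Q X ≤ num M Q' X := by
  refine Finset.card_le_card fun D hD => ?_
  rw [Finset.mem_filter] at hD ⊢
  exact ⟨hD.1, hD.2.1, h D hD.2.1 hD.2.2⟩

/-- **Main theorem.** -/
theorem result (M : Finset ℕ) (hM : ∀ l ∈ M, l.Prime ∧ l % 9 = 1) :
    (0.56 : ℝ) < c ∧
    (∀ D : ℕ, InClass M D → ∀ (K : Type) [Field K] [NumberField K], Tower M K →
      rootNumber K D = 1 ∧ Module.Finite ℤ (curve D K).toAffine.Point) ∧
    (∀ D : ℕ, InClass M D → Good M D →
      (∀ (F : Type) [Field F] [NumberField F], Inside M F → Finite (curve D F).toAffine.Point) ∧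
      (∀ (K : Type) [Field K] [NumberField K], Tower M K → Even (rank K D)) ∧ ParityHolds M D) ∧
    Tendsto (fun X : ℕ => (num M (Good M) X : ℝ) / (num M (fun _ => True) X : ℝ)) atTop
      (𝓝 (c ^ 3 ^ M.card)) ∧
    (∀ ε : ℝ, 0 < ε → ∃ X₀ : ℕ, ∀ X : ℕ, X₀ ≤ X →
      (c ^ 3 ^ M.card - ε) * (num M (fun _ => True) X : ℝ) ≤ (num M (ParityHolds M) X : ℝ)) ∧
    ∃ a : ℝ, 0 < a ∧ ∃ X₀ : ℕ, ∀ X : ℕ, X₀ ≤ X →
      a * X / Real.sqrt (Real.log X) ≤ (num M (ParityHolds M) X : ℝ) := by
  obtain ⟨hc1, -, hgood, hlaw, -, a, ha, X₁, hX₁⟩ :=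
    Pool.Agent.Results.MP_7cad78_nt.AllSubfieldsRankZero.result M hM
  have hc0 : 0 < c := by linarith
  have hp : 0 < c ^ 3 ^ M.card := by positivity
  have hpar : ∀ D, InClass M D → Good M D → ParityHolds M D := by
    intro D hD hg K _ _ hK
    rw [root_one hM hD K hK]
    exact (rank_even hM hD hg K hK).neg_one_pow
  have hle : ∀ X, (num M (Good M) X : ℝ) ≤ (num M (ParityHolds M) X : ℝ) := by
    intro X
    have h : num M (Good M) X ≤ num M (ParityHolds M) X := by
      refine Finset.card_le_card fun D hD => ?_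
      rw [Finset.mem_filter] at hD ⊢
      exact ⟨hD.1, hD.2.1, hpar D hD.2.1 hD.2.2⟩
    exact_mod_cast h
  have hall : ∀ X : ℕ, X₁ ≤ X →
      a * X / Real.sqrt (Real.log X) ≤ (num M (fun _ => True) X : ℝ) := by
    intro X hX
    refine (hX₁ X hX).trans ?_
    have h : num M (Pool.Agent.Results.MP_7cad78_nt.AllSubfieldsRankZero.RankZeroInside M) X ≤
        num M (fun _ => True) X := num_mono (fun _ _ _ => trivial) X
    exact_mod_cast h
  have hpos : ∀ X : ℕ, max X₁ 2 ≤ X → 0 < (num M (fun _ => True) X : ℝ) := by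
    intro X hX
    refine lt_of_lt_of_le ?_ (hall X ((le_max_left _ _).trans hX))
    have h2 : (2 : ℝ) ≤ X := by exact_mod_cast (le_max_right _ _).trans hX
    have h3 : 0 < Real.log X := Real.log_pos (by linarith)
    have h4 : 0 < Real.sqrt (Real.log X) := Real.sqrt_pos.2 h3
    positivity
  have hlow : ∀ u : ℝ, u < c ^ 3 ^ M.card → ∃ X₀ : ℕ, ∀ X : ℕ, X₀ ≤ X →
      u * (num M (fun _ => True) X : ℝ) ≤ (num M (ParityHolds M) X : ℝ) := by
    intro u hu
    obtain ⟨X₂, hX₂⟩ := Filter.eventually_atTop.1 (hlaw.eventually (lt_mem_nhds hu))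
    refine ⟨max X₂ (max X₁ 2), fun X hX => ?_⟩
    have h2 := hX₂ X ((le_max_left _ _).trans hX)
    have h3 := hpos X ((le_max_right _ _).trans hX)
    rw [lt_div_iff₀ h3] at h2
    exact h2.le.trans (hle X)
  refine ⟨hc1, fun D hD K _ _ hK => ⟨root_one hM hD K hK, Pool.Agent.E8helper89.PC.t_FG K D hD.1.ne_zero⟩,
    fun D hD hg => ⟨(hgood D hD hg).1, fun K _ _ hK => rank_even hM hD hg K hK, hpar D hD hg⟩,
    hlaw, fun ε hε => hlow _ (by linarith), ?_⟩
  obtain ⟨X₀, h⟩ := hlow (c ^ 3 ^ M.card / 2) (by linarith)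
  refine ⟨c ^ 3 ^ M.card / 2 * a, by positivity, max X₀ X₁, fun X hX => ?_⟩
  have h2 := h X ((le_max_left _ _).trans hX)
  have h3 := hall X ((le_max_right _ _).trans hX)
  have h5 : c ^ 3 ^ M.card / 2 * a * X / Real.sqrt (Real.log X) =
      c ^ 3 ^ M.card / 2 * (a * X / Real.sqrt (Real.log X)) := by ring
  rw [h5]
  exact (mul_le_mul_of_nonneg_left h3 (by positivity)).trans h2

end Pool.Agent.Results.MP_02f36d_nt.CubicClosureTowersH49
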